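import Pool.Agent.N321.KT.Defs

/-!
# KT/SUM: direct sums
-/

set_option autoImplicit false

namespace Pool.Agent.N624.KT.SUM

open Pool.Agent.N321.KT

theorem mul_zero_left {ι R : Type} [CommRing R] (v : Jet ι R) (w : List ι) :
    mul (0 : Jet ι R) v w = 0 := by
  induction w generalizing v with
  | nil => simp [mul]
  | cons i w ih =>
    have : D i (0 : Jet ι R) = 0 := rfl
    simp only [mul, this, ih, add_zero]

theorem mul_add_left {ι R : Type} [CommRing R] (u u' v : Jet ι R) (w : List ι) :
    mul (u + u') v w = mul u v w + mul u' v w := by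
  induction w generalizing u u' v with
  | nil => simp [mul, add_mul]
  | cons i w ih =>
    have : D i (u + u') = D i u + D i u' := rfl
    simp only [mul, this, ih]; ring

theorem mul_map {α ι R : Type} [CommRing R] (φ : α → ι) (u v : Jet ι R) (w : List α) :
    mul u v (w.map φ) = mul (fun w => u (w.map φ)) (fun w => v (w.map φ)) w := by
  induction w generalizing u v with
  | nil => rfl
  | cons i w ih =>
    change mul (D (φ i) u) v (w.map φ) + mul u (D (φ i) v) (w.map φ) = _
    rw [ih, ih]
    rfl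

/-- The jet of a constant. -/
def del {ι : Type} (c : ℝ) : Jet ι ℝ
  | [] => c
  | _ :: _ => 0

theorem mul_del {ι : Type} (c : ℝ) (v : Jet ι ℝ) (w : List ι) : mul (del c) v w = c * v w := by
  induction w generalizing v with
  | nil => rfl
  | cons i w ih =>
    change mul (D i (del c)) v w + mul (del c) (D i v) w = _
    have h : D i (del c : Jet ι ℝ) = 0 := rfl
    rw [h, mul_zero_left, ih, zero_add]
    rfl

theorem th_restrict {α ι : Type} [Fintype α] [Fintype ι] (φ : α → ι)
    (hφ : Function.Injective φ) (K : ι → ι → Jet ι ℝ) (k : α → α → Jet α ℝ)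
    (h1 : ∀ s j w, K (φ s) (φ j) (w.map φ) = k s j w)
    (h2 : ∀ s, s ∉ Set.range φ → ∀ j (w : List α), K s (φ j) (w.map φ) = 0)
    (v : Jet ι ℝ) (j : α) (w : List α) :
    th K v (φ j) (w.map φ) = th k (fun w => v (w.map φ)) j w := by
  unfold th
  symm
  refine Fintype.sum_of_injective φ hφ _ _ ?_ ?_
  · intro s hs
    rw [mul_map]
    have h : (fun w : List α => K s (φ j) (w.map φ)) = 0 := funext fun w => h2 s hs j w
    rw [h, mul_zero_left]
  · intro s
    rw [mul_map]
    have h : (fun w : List α => K (φ s) (φ j) (w.map φ)) = k s j := funext fun w => h1 s j w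
    rw [h]
    rfl

theorem ker_restrict {α ι : Type} [Fintype α] [Fintype ι] (φ : α → ι)
    (hφ : Function.Injective φ) (K : ι → ι → Jet ι ℝ) (k : α → α → Jet α ℝ)
    (h1 : ∀ s j w, K (φ s) (φ j) (w.map φ) = k s j w)
    (h2 : ∀ s, s ∉ Set.range φ → ∀ j (w : List α), K s (φ j) (w.map φ) = 0)
    (m : ℕ) (v : Jet ι ℝ) (hv : v ∈ Ker m K) : (fun w : List α => v (w.map φ)) ∈ Ker m k := by
  obtain ⟨hS, hT, hR⟩ := hv
  refine ⟨?_, ?_, ?_⟩
  · intro w w' h
    exact hS _ _ (h.map φ)
  · intro w hw
    have := hT _ hw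
    rw [List.length_map] at this
    exact this
  · intro w hw i j
    have h := hR (w.map φ) (by rw [List.length_map]; exact hw) (φ i) (φ j)
    unfold om at h ⊢
    have e1 : th K v (φ j) (φ i :: w.map φ) = th k (fun w => v (w.map φ)) j (i :: w) :=
      th_restrict φ hφ K k h1 h2 v j (i :: w)
    have e2 : th K v (φ i) (φ j :: w.map φ) = th k (fun w => v (w.map φ)) i (j :: w) :=
      th_restrict φ hφ K k h1 h2 v i (j :: w)
    rw [e1, e2] at h
    exact h

theorem th_shift {ι : Type} [Fintype ι] [DecidableEq ι] (d : ι → ℝ) (c : ℝ)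
    (l : ι → ι → ι → ℝ) (v : Jet ι ℝ) (j : ι) (w : List ι) :
    th (Kjet (fun i => d i + c) l) v j w = th (Kjet d l) v j w + c * v (j :: w) := by
  unfold th
  have h : ∀ s, Kjet (fun i => d i + c) l s j =
      Kjet d l s j + (if s = j then (del c : Jet ι ℝ) else 0) := by
    intro s
    funext w
    rw [Pi.add_apply]
    by_cases hs : s = j
    · rw [if_pos hs]
      match w with
      | [] => simp [Kjet, del, hs]
      | [l] => simp [Kjet, del]
      | _ :: _ :: _ => simp [Kjet, del]
    · rw [if_neg hs]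
      match w with
      | [] => simp [Kjet, hs]
      | [l] => simp [Kjet]
      | _ :: _ :: _ => simp [Kjet]
  have h2 : ∀ s, mul (Kjet (fun i => d i + c) l s j) (D s v) w =
      mul (Kjet d l s j) (D s v) w + (if s = j then c * v (j :: w) else 0) := by
    intro s
    rw [h s, mul_add_left]
    congr 1
    by_cases hs : s = j
    · rw [if_pos hs, if_pos hs, mul_del, hs]
      rfl
    · rw [if_neg hs, if_neg hs, mul_zero_left]
  rw [Finset.sum_congr rfl fun s _ => h2 s, Finset.sum_add_distrib]
  congr 1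
  rw [Finset.sum_ite_eq' Finset.univ j, if_pos (Finset.mem_univ j)]

theorem ker_shift {ι : Type} [Fintype ι] [DecidableEq ι] (d : ι → ℝ) (c : ℝ)
    (l : ι → ι → ι → ℝ) (m : ℕ) (v : Jet ι ℝ)
    (hv : v ∈ Ker m (Kjet (fun i => d i + c) l)) : v ∈ Ker m (Kjet d l) := by
  obtain ⟨hS, hT, hR⟩ := hv
  refine ⟨hS, hT, ?_⟩
  intro w hw i j
  have h := hR w hw i j
  unfold om at h ⊢
  rw [th_shift, th_shift] at h
  have h3 : v (j :: i :: w) = v (i :: j :: w) := hS _ _ (List.Perm.swap i j w)
  rw [h3] at h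
  linarith

/-- The coefficients of the direct sum. -/
def bS {ι₁ ι₂ : Type} (b₁ : ι₁ → ι₁ → ι₁ → ℝ) (b₂ : ι₂ → ι₂ → ι₂ → ℝ)
    (x y z : ι₁ ⊕ ι₂) : ℝ :=
  Sum.elim (fun i => Sum.elim (fun j => Sum.elim (fun k => b₁ i j k) (fun _ => 0) z)
      (fun _ => 0) y)
    (fun i => Sum.elim (fun _ => 0) (fun j => Sum.elim (fun _ => 0) (fun k => b₂ i j k) z) y) x

theorem t (h : S_PUR) : S_SUM := by
  intro ι₁ ι₂ _ _ _ _ m e₁ e₂ d₁ d₂ b₁ b₂ hm hd₁ hd₂ hP₁ hP₂
  obtain ⟨c, hc⟩ := (Set.finite_range (fun p : ι₁ × ι₂ => d₁ p.1 - d₂ p.2)).exists_notMem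
  have hc' : ∀ i j, d₁ i ≠ d₂ j + c := fun i j hij =>
    hc ⟨(i, j), by
      change d₁ i - d₂ j = c
      linarith⟩
  have hinj : Function.Injective (Sum.elim d₁ (fun i => d₂ i + c)) := by
    rintro (i | i) (j | j) hij
    · exact congrArg Sum.inl (hd₁ hij)
    · exact absurd hij (hc' i j)
    · exact absurd hij.symm (hc' j i)
    · exact congrArg Sum.inr (hd₂ (add_right_cancel hij))
  refine ⟨Sum.elim d₁ (fun i => d₂ i + c), bS b₁ b₂, hinj, ?_⟩
  refine h (ι₁ ⊕ ι₂) m _ (Sum.elim d₁ (fun i => d₂ i + c)) hinj (fun s j => rfl) ?_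
  intro v hv i k hk hkm
  rcases i with i | i
  · have h1 := ker_restrict (Sum.inl : ι₁ → ι₁ ⊕ ι₂) Sum.inl_injective _
      (Kjet d₁ (lin e₁ b₁)) (by
        intro s j w
        match w with
        | [] => simp [Kjet]
        | [l] => rfl
        | _ :: _ :: _ => rfl) (by
        intro s hs j w
        rcases s with s | s
        · exact absurd ⟨s, rfl⟩ hs
        · match w with
          | [] => simp [Kjet]
          | [l] =>
            change lin (Sum.elim e₁ e₂) (bS b₁ b₂) (Sum.inr s) (Sum.inl j) (Sum.inl l) = 0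
            simp [lin, bS]
          | _ :: _ :: _ => rfl) m v hv
    by_contra hne
    have h2 : (fun w : List ι₁ => v (w.map Sum.inl)) (List.replicate k i) ≠ 0 := by
      change v ((List.replicate k i).map Sum.inl) ≠ 0
      rw [List.map_replicate]
      exact hne
    have h3 := (hP₁ _ h1 _ h2).1
    rw [List.length_replicate] at h3
    omega
  · have h1 := ker_restrict (Sum.inr : ι₂ → ι₁ ⊕ ι₂) Sum.inr_injective _
      (Kjet (fun i => d₂ i + c) (lin e₂ b₂)) (by
        intro s j w
        match w with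
        | [] => simp [Kjet]
        | [l] => rfl
        | _ :: _ :: _ => rfl) (by
        intro s hs j w
        rcases s with s | s
        · match w with
          | [] => simp [Kjet]
          | [l] =>
            change lin (Sum.elim e₁ e₂) (bS b₁ b₂) (Sum.inl s) (Sum.inr j) (Sum.inr l) = 0
            simp [lin, bS]
          | _ :: _ :: _ => rfl
        · exact absurd ⟨s, rfl⟩ hs) m v hv
    have h1' := ker_shift d₂ c (lin e₂ b₂) m _ h1
    by_contra hne
    have h2 : (fun w : List ι₂ => v (w.map Sum.inr)) (List.replicate k i) ≠ 0 := by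
      change v ((List.replicate k i).map Sum.inr) ≠ 0
      rw [List.map_replicate]
      exact hne
    have h3 := (hP₂ _ h1' _ h2).1
    rw [List.length_replicate] at h3
    omega

end Pool.Agent.N624.KT.SUM
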